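import Pool.Agent.NL.StmtsB

/-!
# NLO, row BMA: the machine of the case BETA
-/

set_option autoImplicit false

open MeasureTheory Filter Topology

noncomputable section

namespace Pool.Agent.NL.H69

/-- the combination `∑ a j • δ_(x j)` -/
def cb (m : ℕ) (a : ℕ → ℝ) (x : ℕ → ℝ) : ℝ →₀ ℝ :=
  ∑ j ∈ Finset.range m, a j • Finsupp.single (x j) 1

theorem V_single (G : ℝ → Z) (x : ℝ) : V G (Finsupp.single x 1) = G x := by
  rw [V, Finsupp.linearCombination_single, one_smul]

theorem V_cb (G : ℝ → Z) (m : ℕ) (a : ℕ → ℝ) (x : ℕ → ℝ) :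
    V G (cb m a x) = ∑ j ∈ Finset.range m, a j • G (x j) := by
  rw [cb, map_sum]
  refine Finset.sum_congr rfl fun j _ => ?_
  rw [map_smul, V_single]

theorem supp_sum (S : Finset ℕ) (a : ℕ → ℝ) (x : ℕ → ℝ) (T : Finset ℝ)
    (h : ∀ j ∈ S, x j ∈ T) :
    (∑ j ∈ S, a j • Finsupp.single (x j) (1 : ℝ)).support ⊆ T := by
  classical
  refine Finsupp.support_finset_sum.trans ?_
  intro z hz
  obtain ⟨j, hj, hz⟩ := Finset.mem_biUnion.1 hz
  have h1 : z ∈ (Finsupp.single (x j) (1 : ℝ)).support := Finsupp.support_smul hz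
  have h2 : z = x j := Finset.mem_singleton.1 (Finsupp.support_single_subset h1)
  rw [h2]
  exact h j hj

theorem cb_apply (m : ℕ) (a : ℕ → ℝ) (x : ℕ → ℝ) (i : ℕ) (hi : i < m)
    (hx : ∀ j, j < m → x j = x i → j = i) : cb m a x (x i) = a i := by
  classical
  rw [cb, Finsupp.finset_sum_apply]
  rw [Finset.sum_eq_single i]
  · simp
  · intro j hj hji
    have h : x j ≠ x i := fun h => hji (hx j (Finset.mem_range.1 hj) h)
    simp [Finsupp.single_apply, h]
  · intro h
    exact absurd (Finset.mem_range.2 hi) h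

/-- the indices of the new configuration -/
theorem ln_cases {n u N : ℕ} (hu : u < n) (hN : 2 ≤ N) (loc x : ℕ → ℝ) (i : ℕ)
    (hi : i < n + (N - 1)) :
    (i < n ∧ i ≠ u ∧ NE.Ln n u loc x i = loc i) ∨
      ∃ a, a < N ∧ NE.Ln n u loc x i = x a ∧ i = if a = 0 then u else n + (a - 1) := by
  by_cases h1 : i < n
  · by_cases h2 : i = u
    · right
      refine ⟨0, by omega, ?_, ?_⟩
      · simp [NE.Ln, h2, hu]
      · simp [h2]
    · left
      refine ⟨h1, h2, ?_⟩
      simp [NE.Ln, h1, h2]
  · right
    refine ⟨i - n + 1, by omega, ?_, ?_⟩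
    · simp [NE.Ln, h1]
    · rw [if_neg (by omega)]
      omega

theorem ln_x {n u N : ℕ} (hu : u < n) (loc x : ℕ → ℝ) (a : ℕ) (ha : a < N) :
    ∃ i, i < n + (N - 1) ∧ NE.Ln n u loc x i = x a := by
  by_cases h : a = 0
  · refine ⟨u, by omega, ?_⟩
    simp [NE.Ln, h, hu]
  · refine ⟨n + (a - 1), by omega, ?_⟩
    have h2 : n + (a - 1) - n + 1 = a := by omega
    simp only [NE.Ln]
    rw [if_neg (by omega), h2]

theorem bma (blk : BlkStmt) (bsr : BsrStmt) (chs : ChsStmt) (lbd : LbdStmt) (gnd : GndStmt) :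
    BmaStmt := by
  classical
  intro X _ _ f F G Ψ hC δ A hA hne
  have hfar : ∀ x ∈ A, ∀ y : X, δ ≤ ‖G x - Ψ y‖ := by
    intro x hx y
    have h1 := hA.far x hx
    have h2 : rho Ψ (G x) ≤ dist (G x) (Ψ y) := Metric.infDist_le_dist_of_mem ⟨y, rfl⟩
    rw [dist_eq_norm] at h2
    exact h1.trans h2
  refine ⟨?_, fun n loc _ i _ => hC.bdd _, fun n loc hI i hi y => hfar _ (hI.1 i hi) y, ?_⟩
  · obtain ⟨x, hx⟩ := hne
    refine ⟨fun _ => x, ⟨fun i _ => hx, ?_, ?_⟩, ?_⟩
    · intro i hi j hj _
      have h1 : i < 1 := hi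
      have h2 : j < 1 := hj
      omega
    · have h1 : (Finset.range 1).image (fun _ : ℕ => x) = {x} := by simp
      rw [h1]
      exact hA.gen x hx
    · intro h0
      have h1 := hfar x hx 0
      rw [h0, map_zero, sub_zero, norm_zero] at h1
      exact absurd hA.pos (not_lt.2 h1)
  · intro n loc hI u hu Q hQ η hη
    obtain ⟨hI1, hI2, hI3⟩ := hI
    obtain ⟨W, hW⟩ : ∃ W : Finset ℝ, W = ((Finset.range n).erase u).image loc := ⟨_, rfl⟩
    have hWm : ∀ w, w ∈ W ↔ ∃ i, i < n ∧ i ≠ u ∧ loc i = w := by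
      intro w
      rw [hW, Finset.mem_image]
      constructor
      · rintro ⟨i, hi, rfl⟩
        exact ⟨i, Finset.mem_range.1 (Finset.mem_of_mem_erase hi), Finset.ne_of_mem_erase hi, rfl⟩
      · rintro ⟨i, h1, h2, rfl⟩
        exact ⟨i, Finset.mem_erase.2 ⟨h2, Finset.mem_range.2 h1⟩, rfl⟩
    have hWA : ∀ w ∈ W, w ∈ A := by
      intro w hw
      obtain ⟨i, h1, _, rfl⟩ := (hWm w).1 hw
      exact hI1 i h1
    have hnu : loc u ∉ W := by
      intro h
      obtain ⟨i, h1, h2, h3⟩ := (hWm _).1 h
      exact h2 (hI2 h1 hu h3)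
    have hins : insert (loc u) W = (Finset.range n).image loc := by
      ext z
      rw [Finset.mem_insert, hWm, Finset.mem_image]
      constructor
      · rintro (rfl | ⟨i, h1, _, rfl⟩)
        · exact ⟨u, Finset.mem_range.2 hu, rfl⟩
        · exact ⟨i, Finset.mem_range.2 h1, rfl⟩
      · rintro ⟨i, h1, rfl⟩
        by_cases h : i = u
        · left
          rw [h]
        · right
          exact ⟨i, Finset.mem_range.1 h1, h, rfl⟩
    have hfd : FiniteDimensional ℝ (Submodule.span ℝ Q) := FiniteDimensional.span_of_finite ℝ hQ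
    have hδ := hA.pos
    obtain ⟨ε, N, x, s, p, y, hε, hprod, hch, hx0, hN, hp, hsum, hret⟩ :=
      blk X f F G Ψ hC δ A hA W (loc u) (hI1 u hu) hnu hWA (by rw [hins]; exact hI3)
        (Submodule.span ℝ Q) (min η (1 / 4)) (min η δ) (lt_min hη (by norm_num))
        ((min_le_right _ _).trans (by norm_num)) (lt_min hη hδ) (min_le_right _ _)
    have hxi : ∀ a b, a < N → b < N → x a = x b → a = b := fun a b ha hb h => hch.inj ha hb h
    have hxA : ∀ a, a < N → x a ∈ A := fun a ha => (hch.mem a ha).1
    have hxW : ∀ a, a < N → x a ∉ W := fun a ha => (hch.mem a ha).2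
    -- the elements of the base space
    have hB : ∀ b ∈ NE.Bs Ψ (fun i => G (loc i)) n u Q, ∃ b' : ℝ →₀ ℝ, b'.support ⊆ W ∧
        ∃ z ∈ Submodule.span ℝ Q, b = V G b' - Ψ z := by
      intro b hb
      have e : (fun i => V G (Finsupp.single (loc i) 1)) = fun i => G (loc i) := by
        funext i
        exact V_single G _
      rw [← e] at hb
      obtain ⟨c, z, hz, hb2⟩ := bsr X G Ψ n u (fun i => Finsupp.single (loc i) 1) Q b hb
      refine ⟨_, ?_, z, hz, hb2⟩
      refine supp_sum _ _ _ _ fun j hj => ?_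
      rw [hW]
      exact Finset.mem_image_of_mem _ hj
    have hsup : ∀ (b' : ℝ →₀ ℝ), b'.support ⊆ W → ∀ (m : ℕ) (a : ℕ → ℝ),
        (b' + cb m a x).support ⊆ W ∪ (Finset.range m).image x := by
      intro b' hb' m a
      refine Finsupp.support_add.trans (Finset.union_subset_union hb' ?_)
      exact supp_sum _ _ _ _ fun j hj => Finset.mem_image_of_mem _ hj
    refine ⟨N, p, s, x, y, ⟨?_, ?_, ?_⟩, ?_, ?_⟩
    · intro i hi
      rcases ln_cases hu hN loc x i hi with ⟨h1, _, h3⟩ | ⟨a, ha, h2, _⟩
      · rw [h3]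
        exact hI1 i h1
      · rw [h2]
        exact hxA a ha
    · intro i hi j hj hij
      rcases ln_cases hu hN loc x i hi with ⟨h1, h2, h3⟩ | ⟨a, ha, h2, h3⟩
      · rcases ln_cases hu hN loc x j hj with ⟨k1, k2, k3⟩ | ⟨b, hb, k2, k3⟩
        · rw [h3, k3] at hij
          exact hI2 h1 k1 hij
        · rw [h3, k2] at hij
          exact absurd ((hWm _).2 ⟨i, h1, h2, hij⟩) (hxW b hb)
      · rcases ln_cases hu hN loc x j hj with ⟨k1, k2, k3⟩ | ⟨b, hb, k2, k3⟩
        · rw [h2, k3] at hij
          exact absurd ((hWm _).2 ⟨j, k1, k2, hij.symm⟩) (hxW a ha)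
        · rw [h2, k2] at hij
          rw [h3, k3, hxi a b ha hb hij]
    · have e : (Finset.range (n + (N - 1))).image (NE.Ln n u loc x) =
          W ∪ (Finset.range N).image x := by
        ext z
        rw [Finset.mem_union, hWm, Finset.mem_image, Finset.mem_image]
        constructor
        · rintro ⟨i, hi, rfl⟩
          rcases ln_cases hu hN loc x i (Finset.mem_range.1 hi) with ⟨h1, h2, h3⟩ | ⟨a, ha, h2, _⟩
          · left
            exact ⟨i, h1, h2, h3.symm⟩
          · right
            exact ⟨a, Finset.mem_range.2 ha, h2.symm⟩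
        · rintro (⟨i, h1, h2, rfl⟩ | ⟨a, ha, rfl⟩)
          · refine ⟨i, Finset.mem_range.2 (by omega), ?_⟩
            simp [NE.Ln, h1, h2]
          · obtain ⟨i, h1, h2⟩ := ln_x hu loc x a (Finset.mem_range.1 ha)
            exact ⟨i, Finset.mem_range.2 h1, h2⟩
      rw [e]
      exact hch.gn
    · -- the step
      have hst := chs Z (NE.Bs Ψ (fun i => G (loc i)) n u Q) N (fun j => G (x j)) p s ε
        (min η (1 / 4)) hN hp hsum hch.lt hε hprod (min_le_right _ _) (by
          intro m hm hmN b hb a β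
          obtain ⟨b', hb', z, hz, rfl⟩ := hB b hb
          have h := (hch.nr m hm hmN).lo (b' + cb m a x) (hsup b' hb' m a) β z hz
          rw [map_add, V_cb] at h
          have e1 : ∀ w : Z, V G b' - Ψ z + ∑ j ∈ Finset.range m, a j • G (x j) + w =
              V G b' + ∑ j ∈ Finset.range m, a j • G (x j) + w - Ψ z := by
            intro w
            abel
          rw [e1, e1]
          exact h) (by
          intro m hm hmN b hb a t ht0 ht1
          obtain ⟨b', hb', z, hz, rfl⟩ := hB b hb
          have h := (hch.nr m hm hmN).up (b' + cb m a x) (hsup b' hb' m a) t ht0 ht1 z hz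
          have hsm : s m < m := hch.lt m hm hmN
          have e2 : (b' + cb m a x) (x (s m)) = a (s m) := by
            rw [Finsupp.add_apply, cb_apply m a x (s m) hsm
              (fun j hj h => hxi j (s m) (hj.trans hmN) (hsm.trans hmN) h)]
            have h0 : b' (x (s m)) = 0 := by
              by_contra h0
              exact hxW (s m) (hsm.trans hmN) (hb' (Finsupp.mem_support_iff.2 h0))
            rw [h0, zero_add]
          rw [e2, map_add, V_cb] at h
          have e1 : ∀ w : Z, V G b' - Ψ z + ∑ j ∈ Finset.range m, a j • G (x j) + w =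
              V G b' + ∑ j ∈ Finset.range m, a j • G (x j) + w - Ψ z := by
            intro w
            abel
          have e3 : V G b' - Ψ z + ∑ j ∈ Finset.range m, a j • G (x j) =
              V G b' + ∑ j ∈ Finset.range m, a j • G (x j) - Ψ z := by
            abel
          rw [e1, e3]
          exact h) (by
          intro a ha j hj
          have hgood := (gnd X G Ψ _ hch.gn).1
          have hfr : ∀ w ∈ W ∪ (Finset.range N).image x, δ ≤ rho Ψ (G w) := by
            intro w hw
            rcases Finset.mem_union.1 hw with h | h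
            · exact hA.far w (hWA w h)
            · obtain ⟨i, hi, rfl⟩ := Finset.mem_image.1 h
              exact hA.far _ (hxA i (Finset.mem_range.1 hi))
          have hsupp : (cb N a x).support ⊆ W ∪ (Finset.range N).image x := by
            have h := hsup 0 (by simp) N a
            rwa [zero_add] at h
          have h := (lbd X f F G Ψ hC δ hδ _ hgood hfr (cb N a x) hsupp).1 (x j)
            (Finset.mem_union_right _ (Finset.mem_image_of_mem _ (Finset.mem_range.2 hj)))
          rw [V_cb, cb_apply N a x j hj (fun i hi h => hxi i j hi hj h)] at h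
          have h0 : rho Ψ (∑ j ∈ Finset.range N, a j • G (x j)) = 0 := by
            have ha' : ∑ j ∈ Finset.range N, a j • G (x j) = 0 := ha
            rw [ha']
            exact Metric.infDist_zero_of_mem ⟨0, map_zero Ψ⟩
          rw [h0] at h
          have h1 : |a j| ≤ 0 := by
            by_contra hc
            have := mul_pos hδ (not_le.1 hc)
            linarith
          exact abs_nonpos_iff.1 h1)
      have hle : min η (1 / 4) ≤ η := min_le_left _ _
      have hx0' : G (loc u) = G (x 0) := by rw [hx0]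
      rw [hx0']
      refine ⟨hst.two, hst.pos, hst.sum, hst.lt, ?_, ?_, hst.inn, hst.nz⟩
      · intro b hb A'
        refine (hst.up b hb A').trans ?_
        exact mul_le_mul_of_nonneg_right (by linarith) (norm_nonneg _)
      · intro b hb a
        refine (hst.lo b hb a).trans ?_
        exact mul_le_mul_of_nonneg_right (by linarith) (norm_nonneg _)
    · intro b hb A'
      have h1 : ‖∑ j ∈ Finset.range N, p j • G (x j) - Ψ y‖ ≤ η :=
        hret.le.trans (min_le_left _ _)
      rw [sub_self, mul_zero, zero_smul, add_zero, one_smul]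
      calc ‖b + A' • (∑ j ∈ Finset.range N, p j • G (x j) - Ψ y)‖
          ≤ ‖b‖ + ‖A' • (∑ j ∈ Finset.range N, p j • G (x j) - Ψ y)‖ := norm_add_le _ _
        _ ≤ (1 + η) * ‖b‖ + η * |A'| := by
            rw [norm_smul, Real.norm_eq_abs]
            have h2 : |A'| * ‖∑ j ∈ Finset.range N, p j • G (x j) - Ψ y‖ ≤ |A'| * η :=
              mul_le_mul_of_nonneg_left h1 (abs_nonneg _)
            nlinarith [norm_nonneg b]

end Pool.Agent.NL.H69
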